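import Pool.Agent.H26.LQ.Defs

/-! ZM3 of the board lq_modules: the inverse property of `zm`. -/

set_option autoImplicit false

open MeasureTheory Set Filter Topology Metric

namespace Pool.Agent.H31.LQ

open Pool.Agent.H26.LQ Pool.Agent.H26.ZQ Pool.Agent.H26.MQ Pool.Agent.H26.ML

theorem sinh_re' (z : ℂ) : (Complex.sinh z).re = Real.sinh z.re * Real.cos z.im := by
  have h : z = (z.re : ℂ) + (z.im : ℂ) * Complex.I := (Complex.re_add_im z).symm
  conv_lhs => rw [h]
  rw [Complex.sinh_add, Complex.sinh_mul_I, Complex.cosh_mul_I, ← Complex.ofReal_sinh,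
    ← Complex.ofReal_cosh, ← Complex.ofReal_cos, ← Complex.ofReal_sin]
  simp only [Complex.add_re, Complex.mul_re, Complex.ofReal_re, Complex.ofReal_im, Complex.mul_im,
    Complex.I_re, Complex.I_im]
  ring

theorem sinh_im' (z : ℂ) : (Complex.sinh z).im = Real.cosh z.re * Real.sin z.im := by
  have h : z = (z.re : ℂ) + (z.im : ℂ) * Complex.I := (Complex.re_add_im z).symm
  conv_lhs => rw [h]
  rw [Complex.sinh_add, Complex.sinh_mul_I, Complex.cosh_mul_I, ← Complex.ofReal_sinh,
    ← Complex.ofReal_cosh, ← Complex.ofReal_cos, ← Complex.ofReal_sin]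
  simp only [Complex.add_im, Complex.mul_re, Complex.ofReal_re, Complex.ofReal_im, Complex.mul_im,
    Complex.I_re, Complex.I_im]
  ring

theorem cosh_re' (z : ℂ) : (Complex.cosh z).re = Real.cosh z.re * Real.cos z.im := by
  have h : z = (z.re : ℂ) + (z.im : ℂ) * Complex.I := (Complex.re_add_im z).symm
  conv_lhs => rw [h]
  rw [Complex.cosh_add, Complex.sinh_mul_I, Complex.cosh_mul_I, ← Complex.ofReal_sinh,
    ← Complex.ofReal_cosh, ← Complex.ofReal_cos, ← Complex.ofReal_sin]
  simp only [Complex.add_re, Complex.mul_re, Complex.ofReal_re, Complex.ofReal_im, Complex.mul_im,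
    Complex.I_re, Complex.I_im]
  ring

theorem sq_unique {a b : ℂ} (h : a ^ 2 = b ^ 2) (ha : 0 < a.re) (hb : 0 < b.re) : a = b := by
  rcases sq_eq_sq_iff_eq_or_eq_neg.1 h with h1 | h1
  · exact h1
  · exfalso
    rw [h1, Complex.neg_re] at ha
    linarith

theorem pf_zm3 (hSQ : T_SQ1) : T_ZM3 := by
  obtain ⟨hsq, -, -, -, hpos, -⟩ := hSQ
  intro κ z hκ hz him
  have e1 : ((κ : ℂ) * z).re = κ * z.re := by simp
  have e2 : ((κ : ℂ) * z).im = κ * z.im := by simp
  have him2 : |κ * z.im| < Real.pi / 2 := by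
    rw [abs_mul, abs_of_pos hκ]
    have := mul_lt_mul_of_pos_left him hκ
    rwa [show κ * (Real.pi / (2 * κ)) = Real.pi / 2 by field_simp] at this
  rw [abs_lt] at him2
  have hcos : 0 < Real.cos (κ * z.im) :=
    Real.cos_pos_of_mem_Ioo ⟨by linarith [him2.1], him2.2⟩
  have hx : 0 < κ * z.re := mul_pos hκ hz
  have hs : 0 < (Complex.sinh (κ * z)).re := by
    rw [sinh_re', e1, e2]
    exact mul_pos (Real.sinh_pos_iff.2 hx) hcos
  have hc : 0 < (Complex.cosh (κ * z)).re := by
    rw [cosh_re', e1, e2]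
    exact mul_pos (Real.cosh_pos _) hcos
  refine ⟨hs, ?_⟩
  have hq : sq1 (Complex.sinh (κ * z)) = Complex.cosh (κ * z) := by
    refine sq_unique ?_ (hpos _ hs) hc
    rw [hsq, Complex.cosh_sq]
  unfold zm
  rw [hq, Complex.sinh_add_cosh, Complex.log_exp]
  · rw [mul_div_cancel_left₀]
    exact_mod_cast hκ.ne'
  · rw [e2]
    linarith [him2.1, Real.pi_pos]
  · rw [e2]
    linarith [him2.2, Real.pi_pos]

end Pool.Agent.H31.LQ
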