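import Pool.Agent.H31.LQ.ZM3

/-! ZM4 of the board lq_modules: `zm` near zero. -/

set_option autoImplicit false

open MeasureTheory Set Filter Topology Metric

namespace Pool.Agent.H31.LQ

open Pool.Agent.H26.LQ Pool.Agent.H26.ZQ Pool.Agent.H26.MQ Pool.Agent.H26.ML

theorem pf_zm4 (hSQ : T_SQ1) (hZM2 : T_ZM2) : T_ZM4 := by
  obtain ⟨hsq, -, -, -, -, hpos⟩ := hSQ
  intro κ w hκ hw hre
  have hκ0 : 0 < κ := by linarith
  have hw1 : ‖w‖ < 1 := by linarith
  have hS : 0 < (sq1 w).re := hpos w hw1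
  have hS' : 0 < (sq1 (-(starRingEnd ℂ) w)).re := by
    refine hpos _ ?_
    rw [norm_neg, RCLike.norm_conj]
    exact hw1
  have hconj : sq1 (-(starRingEnd ℂ) w) = (starRingEnd ℂ) (sq1 w) := by
    refine sq_unique ?_ hS' ?_
    · rw [hsq, ← map_pow, hsq]
      simp
    · rw [Complex.conj_re]
      exact hS
  have hsqw := hsq w
  -- the product of `w + S` and `S - w` is `1`
  have hprod : (w + sq1 w) * (sq1 w - w) = 1 := by
    linear_combination hsqw
  have hq0 : w + sq1 w ≠ 0 := by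
    intro h
    rw [h, zero_mul] at hprod
    exact zero_ne_one hprod
  have hinv : sq1 w - w = (w + sq1 w)⁻¹ := by
    exact (eq_inv_of_mul_eq_one_right hprod)
  have hqre : 0 < (w + sq1 w).re := by
    rw [Complex.add_re]
    linarith
  have harg : (w + sq1 w).arg ≠ Real.pi := by
    intro h
    have := (Complex.arg_eq_pi_iff.1 h).1
    linarith
  have harg' : ((w + sq1 w)⁻¹).arg ≠ Real.pi := by
    intro h
    have h1 := (Complex.arg_eq_pi_iff.1 h).1
    rw [Complex.inv_re] at h1
    have h2 : 0 < Complex.normSq (w + sq1 w) := Complex.normSq_pos.2 hq0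
    have h3 : 0 < (w + sq1 w).re / Complex.normSq (w + sq1 w) := div_pos hqre h2
    linarith
  have hfirst : zm κ (-(starRingEnd ℂ) w) = -(starRingEnd ℂ) (zm κ w) := by
    unfold zm
    rw [hconj]
    have h1 : -(starRingEnd ℂ) w + (starRingEnd ℂ) (sq1 w) =
        (starRingEnd ℂ) ((w + sq1 w)⁻¹) := by
      rw [← hinv, map_sub]
      ring
    rw [h1, Complex.log_conj _ harg', Complex.log_inv _ harg, map_neg, map_div₀,
      Complex.conj_ofReal]
    ring
  obtain ⟨h2a, -⟩ := hZM2 κ w hκ0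
  obtain ⟨hz0, hzi, hzs⟩ := h2a hre
  -- real and imaginary parts
  have e1 : ((κ : ℂ) * zm κ w).re = κ * (zm κ w).re := by simp
  have e2 : ((κ : ℂ) * zm κ w).im = κ * (zm κ w).im := by simp
  set p : ℝ := κ * (zm κ w).re with hp
  set s : ℝ := κ * (zm κ w).im with hs
  have hre2 : Real.sinh p * Real.cos s = w.re := by
    have := congrArg Complex.re hzs
    rwa [sinh_re', e1, e2] at this
  have him2 : Real.cosh p * Real.sin s = w.im := by
    have := congrArg Complex.im hzs
    rwa [sinh_im', e1, e2] at this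
  have hs2 : |s| ≤ Real.pi / 2 := by
    rw [hs, abs_mul, abs_of_pos hκ0]
    have := mul_le_mul_of_nonneg_left hzi hκ0.le
    rwa [show κ * (Real.pi / (2 * κ)) = Real.pi / 2 by field_simp] at this
  have hp0 : 0 ≤ p := mul_nonneg hκ0.le hz0
  have hsin : |Real.sin s| ≤ 1 / 2 := by
    have h1 : |w.im| ≤ 1 / 2 := (Complex.abs_im_le_norm w).trans hw
    rw [← him2, abs_mul, abs_of_pos (Real.cosh_pos p)] at h1
    have h2 := Real.one_le_cosh p
    have h3 := abs_nonneg (Real.sin s)
    nlinarith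
  have hcos0 : 0 ≤ Real.cos s := by
    rw [abs_le] at hs2
    exact Real.cos_nonneg_of_mem_Icc ⟨by linarith [hs2.1], hs2.2⟩
  have hcos : 1 / 2 ≤ Real.cos s := by
    have h1 := Real.sin_sq_add_cos_sq s
    have h2 : Real.sin s ^ 2 ≤ 1 / 4 := by
      rw [← sq_abs]
      nlinarith [abs_nonneg (Real.sin s)]
    nlinarith
  have hsinh0 : 0 ≤ Real.sinh p := Real.sinh_nonneg_iff.2 hp0
  have hps : p ≤ Real.sinh p := Real.self_le_sinh_iff.2 hp0
  have hp2 : p ≤ 2 * w.re := by nlinarith
  refine ⟨hfirst, ?_, ?_, ?_⟩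
  · have h1 : κ * (zm κ w).re ≤ 2 * w.re := hp2
    nlinarith
  · refine hzi.trans ?_
    rw [div_le_one (by positivity)]
    have := Real.pi_le_four
    linarith
  · unfold zm
    have h0 : sq1 0 = 1 := by
      refine sq_unique ?_ (hpos 0 (by simp)) (by simp)
      rw [hsq]
      simp
    rw [h0, zero_add, Complex.log_one, zero_div]

end Pool.Agent.H31.LQ
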